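import Pool.Graph.R_seed8.Results.MP_8916ec_co.TropRankDim

/-!
# Tropical rank versus dimension: exactly the compact polyhedral spaces are good

The definitions (`semimod`, `dim`, `TropDependent`, `troprank`, `troprankT`, `IsPolyhedron`,
`IsPL`) are those of the library module `TropRankDim`.  We prove

* for functions on an arbitrary nonempty set: the real-coefficient tropical rank equals the
  dimension if the differences of the generators are bounded and is infinite otherwise, while the
  dimension is at most the number of generators;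
* for a nonempty polyhedral space `Y ⊆ ℝ^d`: the equality of tropical rank and dimension holds
  for all finitely generated semimodules of piecewise linear functions on `Y` if and only if `Y`
  is compact, and this is already decided by the semimodules generated by `0` and one coordinate
  function; the same equivalence holds when elements that differ by a constant are counted only
  once, and is then decided by the semimodules generated by `0`, `s`, `2s`, `s = e x_k`;
* on a compact polyhedral space the equality also holds for all semimodules of piecewise linear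
  functions that are not finitely generated, the dimension being the supremum of the dimensions of
  the finitely generated subsemimodules;
* the dimension depends only on the semimodule and not on the generating set, and is monotone.
-/

set_option autoImplicit false

namespace Pool.Agent.Results.MP_8916ec_co.CompactIffEquality

open Pool.Agent.Results.MP_8916ec_co.TropRankDim

/-- `Y ⊆ ℝ^d` is a polyhedral subspace: a finite union of closed convex polyhedra. -/
def IsPolyhedralSpace {d : ℕ} (Y : Set (Fin d → ℝ)) : Prop :=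
  ∃ (n : ℕ) (Q : Fin n → Set (Fin d → ℝ)), (∀ i, IsPolyhedron (Q i)) ∧ Y = ⋃ i, Q i

/-- `Rat(Y, ℝ)`: the piecewise linear functions on `Y` together with the constant `∞`. -/
def RatY {d : ℕ} (Y : Set (Fin d → ℝ)) : Set (Y → WithTop ℝ) :=
  {f | f = (fun _ => ⊤) ∨ ∃ h : Y → ℝ, IsPL h ∧ f = fun x => (h x : WithTop ℝ)}

/-- The tropical rank with elements that differ by a real constant counted once: the supremum of
the `r` such that `M` contains `r` tropically independent (over the reals) finite-valued elements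
no two of which differ by a constant. -/
noncomputable def troprankP {Y : Type} (M : Set (Y → WithTop ℝ)) : ℕ∞ :=
  sSup {k | ∃ (r : ℕ) (F : Fin r → Y → ℝ), (∀ i, (fun x => (F i x : WithTop ℝ)) ∈ M) ∧
    (∀ i j, i ≠ j → ¬ ∃ t : ℝ, ∀ x, F i x = F j x + t) ∧ ¬ TropDependent F ∧ k = r}

/-- `M` is a `T`-semimodule of functions: it contains the constant `∞` and is closed under
pointwise minimum and under adding real constants. -/
def IsSubsemimodule {Y : Type} (M : Set (Y → WithTop ℝ)) : Prop :=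
  (fun _ => ⊤) ∈ M ∧ (∀ f ∈ M, ∀ f' ∈ M, (fun x => min (f x) (f' x)) ∈ M) ∧
    ∀ f ∈ M, ∀ c : ℝ, (fun x => f x + (c : WithTop ℝ)) ∈ M

/-- The dimension of a not necessarily finitely generated semimodule: the supremum of the
dimensions of the semimodules generated by finitely many finite-valued elements of `M`. -/
noncomputable def dimSup {Y : Type} (M : Set (Y → WithTop ℝ)) : ℕ∞ :=
  sSup {k | ∃ (l : ℕ) (g : Fin l → Y → ℝ), (∀ j, (fun x => (g j x : WithTop ℝ)) ∈ M) ∧
    k = dim g}

/-- The generators `0, x_k`. -/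
def gen2 {d : ℕ} (Y : Set (Fin d → ℝ)) (k : Fin d) : Fin 2 → Y → ℝ :=
  ![fun _ => 0, fun x => x.1 k]

/-- The generators `0, e x_k, 2 e x_k`. -/
def gen3 {d : ℕ} (Y : Set (Fin d → ℝ)) (k : Fin d) (e : ℝ) : Fin 3 → Y → ℝ :=
  ![fun _ => 0, fun x => e * x.1 k, fun x => 2 * (e * x.1 k)]

theorem dim_le_card {Y : Type} {l : ℕ} (g : Fin l → Y → ℝ) : dim g ≤ l := by
  refine sSup_le ?_
  rintro _ ⟨F, -, -, rfl⟩
  exact_mod_cast Nat.sub_le _ _

theorem single_mem {Y : Type} {l : ℕ} (g : Fin l → Y → ℝ) (i : Fin l) (t : ℝ) :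
    (fun x => ((g i x + t : ℝ) : WithTop ℝ)) ∈ semimod g := by
  classical
  refine ⟨fun k => if k = i then (t : WithTop ℝ) else ⊤, ?_⟩
  funext x
  refine (comb_eq_coe g _ _ _).2 ⟨fun k => ?_, i, by simp⟩
  by_cases hk : k = i
  · subst hk; simp
  · simp [hk]

theorem indep_of_dom {Y : Type} {n : ℕ} (F : Fin (n + 1) → Y → ℝ)
    (h : ∀ N : ℝ, ∃ x, ∀ k, k ≠ 0 → N < F k x - F 0 x) : ¬ TropDependent F := by
  rintro ⟨c, hc⟩
  obtain ⟨N, hN⟩ := exists_ge (fun k : Fin (n + 1) => c 0 - c k)
  obtain ⟨x, hx⟩ := h N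
  obtain ⟨i, j, hij, heq, hle⟩ := hc x
  have key : ∀ k : Fin (n + 1), k ≠ 0 → F 0 x + c 0 < F k x + c k := by
    intro k hk
    have h1 := hN k
    have h2 := hx k hk
    linarith
  by_cases hi : i = 0
  · have hj : j ≠ 0 := fun h => hij (hi.trans h.symm)
    have h1 := key j hj
    rw [hi] at heq
    linarith
  · have h1 := key i hi
    have h2 := hle 0
    linarith

theorem troprank_eq_top_of_unbounded {Y : Type} {l : ℕ} (g : Fin l → Y → ℝ) (i j : Fin l)
    (h : ∀ B : ℝ, ∃ x, B < g i x - g j x) : troprank (semimod g) = ⊤ := by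
  classical
  rw [troprank, sSup_eq_top]
  intro b hb
  obtain ⟨n, rfl⟩ := ENat.ne_top_iff_exists.1 hb.ne
  refine ⟨((n + 1 : ℕ) : ℕ∞), ⟨n + 1, fun k x => if k = 0 then g j x else g i x + ((k : ℕ) : ℝ),
    fun k => ?_, ?_, rfl⟩, by exact_mod_cast Nat.lt_succ_self n⟩
  · by_cases hk : k = 0
    · simp only [hk, if_true]
      have := single_mem g j 0
      simpa using this
    · simp only [hk, if_false]
      exact single_mem g i _
  · refine indep_of_dom _ fun N => ?_
    obtain ⟨x, hx⟩ := h N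
    refine ⟨x, fun k hk => ?_⟩
    have h0 : (0 : ℝ) ≤ ((k : ℕ) : ℝ) := Nat.cast_nonneg _
    simp only [hk, if_false, if_true]
    linarith

theorem exists_unbounded {Y : Type} {l : ℕ} (g : Fin l → Y → ℝ)
    (h : ¬ ∀ i j, ∃ B : ℝ, ∀ x, |g i x - g j x| ≤ B) :
    ∃ i j, ∀ B : ℝ, ∃ x, B < g i x - g j x := by
  by_contra hcon
  push Not at hcon
  apply h
  intro i j
  obtain ⟨B1, h1⟩ := hcon i j
  obtain ⟨B2, h2⟩ := hcon j i
  refine ⟨max B1 B2, fun x => abs_le.2 ⟨?_, ?_⟩⟩
  · have := h2 x
    have := le_max_right B1 B2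
    linarith
  · exact (h1 x).trans (le_max_left _ _)

theorem troprankP_le {Y : Type} (M : Set (Y → WithTop ℝ)) : troprankP M ≤ troprank M := by
  refine sSup_le_sSup ?_
  rintro _ ⟨r, F, h1, -, h3, rfl⟩
  exact ⟨r, F, h1, h3, rfl⟩

theorem le_troprankP {Y : Type} (M : Set (Y → WithTop ℝ)) : troprankT M ≤ troprankP M := by
  classical
  refine sSup_le ?_
  rintro _ ⟨r, F, hFM, hF, rfl⟩
  rcases Nat.eq_zero_or_pos r with rfl | hr
  · simp
  · refine le_sSup ⟨r, F, hFM, fun i j hij => ?_, fun h => hF (dependentT_of_dependent F hr h), rfl⟩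
    rintro ⟨t, ht⟩
    apply hF
    refine ⟨{i, j}, ⟨i, by simp⟩, fun k => if k = j then t else 0, fun x => ?_⟩
    refine ⟨i, by simp, j, by simp, hij, by simp [hij, ht x], ?_⟩
    intro k hk
    rcases hk with rfl | hk
    · exact le_rfl
    · have hk' : k = j := hk
      subst hk'
      simp [hij, ht x]

theorem bounded_case {Y : Type} [Nonempty Y] {l : ℕ} (g : Fin l → Y → ℝ)
    (hB : ∀ i j, ∃ B : ℝ, ∀ x, |g i x - g j x| ≤ B) :
    troprank (semimod g) = dim g ∧ troprankP (semimod g) = dim g := by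
  have h1 := TropRankDim.result.2.1 Y l g hB
  have h2 := TropRankDim.result.1 Y l g
  refine ⟨h1, le_antisymm ?_ ?_⟩
  · exact (troprankP_le _).trans h1.le
  · rw [← h2]
    exact le_troprankP _

/-! ### Three generators `0, s, 2s` -/

theorem troprankP_three {Y : Type} (x0 : Y) (s : Y → ℝ) (hs : ∀ B : ℝ, ∃ x, B < s x)
    (g : Fin 3 → Y → ℝ) (g0 : ∀ x, g 0 x = 0) (g1 : ∀ x, g 1 x = s x)
    (g2 : ∀ x, g 2 x = 2 * s x) : troprankP (semimod g) = ⊤ := by
  classical
  rw [troprankP, sSup_eq_top]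
  intro b hb
  obtain ⟨n, rfl⟩ := ENat.ne_top_iff_exists.1 hb.ne
  obtain ⟨F, hF⟩ : ∃ F : Fin (n + 1) → Y → ℝ, F = fun (k : Fin (n + 1)) x =>
    if k = 0 then (0 : ℝ) else min (s x + (s x0 + ((k : ℕ) : ℝ))) (2 * s x) := ⟨_, rfl⟩
  have hF0 : ∀ x, F 0 x = 0 := fun x => by rw [hF]; simp
  have hFk : ∀ k : Fin (n + 1), k ≠ 0 → ∀ x, F k x = min (s x + (s x0 + ((k : ℕ) : ℝ))) (2 * s x) :=
    fun k hk x => by rw [hF]; simp [hk]
  have hkpos : ∀ k : Fin (n + 1), k ≠ 0 → (1 : ℝ) ≤ ((k : ℕ) : ℝ) := by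
    intro k hk
    have : 1 ≤ (k : ℕ) := Nat.one_le_iff_ne_zero.2 fun h => hk (Fin.ext h)
    exact_mod_cast this
  have hbig : ∀ k : Fin (n + 1), k ≠ 0 → ∀ x, s x0 + ((k : ℕ) : ℝ) ≤ s x →
      F k x = s x + (s x0 + ((k : ℕ) : ℝ)) := by
    intro k hk x hx
    rw [hFk k hk, min_eq_left]
    linarith
  refine ⟨((n + 1 : ℕ) : ℕ∞), ⟨n + 1, F, fun k => ?_, ?_, ?_, rfl⟩,
    by exact_mod_cast Nat.lt_succ_self n⟩
  · by_cases hk : k = 0
    · subst hk
      have := single_mem g 0 0
      simpa [hF0, g0] using this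
    · refine ⟨![⊤, ((s x0 + ((k : ℕ) : ℝ) : ℝ) : WithTop ℝ), ((0 : ℝ) : WithTop ℝ)], ?_⟩
      funext x
      rw [hFk k hk]
      refine (comb_eq_coe g _ _ _).2 ⟨fun j => ?_, ?_⟩
      · fin_cases j
        · simp
        · have : min (s x + (s x0 + ((k : ℕ) : ℝ))) (2 * s x) ≤ s x + (s x0 + ((k : ℕ) : ℝ)) :=
            min_le_left _ _
          change ((min (s x + (s x0 + ((k : ℕ) : ℝ))) (2 * s x) : ℝ) : WithTop ℝ) ≤
            ((g 1 x : ℝ) : WithTop ℝ) + ((s x0 + ((k : ℕ) : ℝ) : ℝ) : WithTop ℝ)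
          rw [g1]
          exact_mod_cast this
        · have : min (s x + (s x0 + ((k : ℕ) : ℝ))) (2 * s x) ≤ 2 * s x + 0 := by
            rw [add_zero]; exact min_le_right _ _
          change ((min (s x + (s x0 + ((k : ℕ) : ℝ))) (2 * s x) : ℝ) : WithTop ℝ) ≤
            ((g 2 x : ℝ) : WithTop ℝ) + ((0 : ℝ) : WithTop ℝ)
          rw [g2]
          exact_mod_cast this
      · rcases le_total (s x + (s x0 + ((k : ℕ) : ℝ))) (2 * s x) with h | h
        · refine ⟨1, ?_⟩
          rw [min_eq_left h]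
          change ((s x + (s x0 + ((k : ℕ) : ℝ)) : ℝ) : WithTop ℝ) =
            ((g 1 x : ℝ) : WithTop ℝ) + ((s x0 + ((k : ℕ) : ℝ) : ℝ) : WithTop ℝ)
          rw [g1, ← WithTop.coe_add]
        · refine ⟨2, ?_⟩
          rw [min_eq_right h]
          change ((2 * s x : ℝ) : WithTop ℝ) = ((g 2 x : ℝ) : WithTop ℝ) + ((0 : ℝ) : WithTop ℝ)
          rw [g2, ← WithTop.coe_add, add_zero]
  · rintro i j hij ⟨t, ht⟩
    by_cases hi : i = 0
    · have hj : j ≠ 0 := fun h => hij (hi.trans h.symm)
      obtain ⟨x, hx⟩ := hs (max (s x0 + ((j : ℕ) : ℝ)) (-t - (s x0 + ((j : ℕ) : ℝ))))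
      have h1 := hbig j hj x ((le_max_left _ _).trans hx.le)
      have h2 := (le_max_right (s x0 + ((j : ℕ) : ℝ)) (-t - (s x0 + ((j : ℕ) : ℝ)))).trans_lt hx
      have h3 := ht x
      rw [hi, hF0, h1] at h3
      linarith
    · by_cases hj : j = 0
      · obtain ⟨x, hx⟩ := hs (max (s x0 + ((i : ℕ) : ℝ)) (t - (s x0 + ((i : ℕ) : ℝ))))
        have h1 := hbig i hi x ((le_max_left _ _).trans hx.le)
        have h2 := (le_max_right (s x0 + ((i : ℕ) : ℝ)) (t - (s x0 + ((i : ℕ) : ℝ)))).trans_lt hx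
        have h3 := ht x
        rw [hj, hF0, h1] at h3
        linarith
      · have hi1 := hkpos i hi
        have hj1 := hkpos j hj
        have h0 := ht x0
        rw [hFk i hi, hFk j hj, min_eq_right (by linarith), min_eq_right (by linarith)] at h0
        obtain ⟨x, hx⟩ := hs (max (s x0 + ((i : ℕ) : ℝ)) (s x0 + ((j : ℕ) : ℝ)))
        have h1 := hbig i hi x ((le_max_left _ _).trans hx.le)
        have h2 := hbig j hj x ((le_max_right _ _).trans hx.le)
        have h3 := ht x
        rw [h1, h2] at h3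
        have h4 : ((i : ℕ) : ℝ) = ((j : ℕ) : ℝ) := by linarith
        exact hij (Fin.ext (by exact_mod_cast h4))
  · refine indep_of_dom F fun N => ?_
    obtain ⟨x, hx⟩ := hs (|N| + |s x0|)
    refine ⟨x, fun k hk => ?_⟩
    have h1 := hkpos k hk
    rw [hF0, hFk k hk, sub_zero, lt_min_iff]
    have h2 := le_abs_self N
    have h3 := abs_nonneg N
    have h4 := neg_abs_le (s x0)
    have h5 := abs_nonneg (s x0)
    constructor <;> linarith

/-! ### Polyhedral spaces -/

theorem isClosed_polyhedron {d : ℕ} {P : Set (Fin d → ℝ)} (hP : IsPolyhedron P) : IsClosed P := by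
  obtain ⟨n, A, b, rfl⟩ := hP
  have : {x : Fin d → ℝ | ∀ i, ∑ k, A i k * x k ≤ b i} =
      ⋂ i, {x : Fin d → ℝ | ∑ k, A i k * x k ≤ b i} := by
    ext x; simp
  rw [this]
  exact isClosed_iInter fun i => isClosed_le (by fun_prop) continuous_const

theorem isClosed_space {d : ℕ} {Y : Set (Fin d → ℝ)} (hY : IsPolyhedralSpace Y) : IsClosed Y := by
  obtain ⟨n, Q, hQ, rfl⟩ := hY
  exact isClosed_iUnion_of_finite fun i => isClosed_polyhedron (hQ i)

theorem isPL_affine {d : ℕ} {Y : Set (Fin d → ℝ)} (hY : IsPolyhedralSpace Y) (f : Y → ℝ)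
    (s : Fin d → ℝ) (t : ℝ) (hf : ∀ x : Y, f x = ∑ k, s k * x.1 k + t) : IsPL f := by
  obtain ⟨n, Q, hQ, hYQ⟩ := hY
  refine ⟨?_, n, Q, hQ, hYQ, fun i => ⟨s, t, fun x _ => hf x⟩⟩
  have : f = fun x : Y => ∑ k, s k * x.1 k + t := funext hf
  rw [this]
  exact (continuous_finsetSum _ fun k _ => continuous_const.mul
    ((continuous_apply k).comp continuous_subtype_val)).add continuous_const

theorem isPL_coord {d : ℕ} {Y : Set (Fin d → ℝ)} (hY : IsPolyhedralSpace Y) (k : Fin d) (a : ℝ)
    (f : Y → ℝ) (hf : ∀ x : Y, f x = a * x.1 k) : IsPL f := by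
  classical
  refine isPL_affine hY f (Pi.single k a) 0 fun x => ?_
  rw [hf, add_zero, Finset.sum_eq_single k]
  · simp
  · intro b _ hb
    simp [hb]
  · intro h
    exact absurd (Finset.mem_univ k) h

theorem gen2_pl {d : ℕ} {Y : Set (Fin d → ℝ)} (hY : IsPolyhedralSpace Y) (k : Fin d) (j : Fin 2) :
    IsPL (gen2 Y k j) := by
  fin_cases j
  · exact isPL_coord hY k 0 _ fun x => by simp [gen2]
  · exact isPL_coord hY k 1 _ fun x => by simp [gen2]

theorem gen3_pl {d : ℕ} {Y : Set (Fin d → ℝ)} (hY : IsPolyhedralSpace Y) (k : Fin d) (e : ℝ)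
    (j : Fin 3) : IsPL (gen3 Y k e j) := by
  fin_cases j
  · exact isPL_coord hY k 0 _ fun x => by simp [gen3]
  · exact isPL_coord hY k e _ fun x => by simp [gen3]
  · exact isPL_coord hY k (2 * e) _ fun x => by simp [gen3, mul_assoc]

theorem isCompact_of_coord {d : ℕ} {Y : Set (Fin d → ℝ)} (hY : IsClosed Y)
    (h : ∀ k : Fin d, ∃ B : ℝ, ∀ x ∈ Y, |x k| ≤ B) : IsCompact Y := by
  rw [Metric.isCompact_iff_isClosed_bounded]
  refine ⟨hY, ?_⟩
  choose B hB using h
  obtain ⟨N, hN⟩ := exists_ge B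
  rw [isBounded_iff_forall_norm_le]
  refine ⟨max N 0, fun x hx => ?_⟩
  rw [pi_norm_le_iff_of_nonneg (le_max_right _ _)]
  intro k
  exact ((hB k x hx).trans (hN k)).trans (le_max_left _ _)

theorem compact_bounded {d : ℕ} {Y : Set (Fin d → ℝ)} (hY : IsCompact Y) {l : ℕ}
    (g : Fin l → Y → ℝ) (hg : ∀ j, Continuous (g j)) :
    ∀ i j, ∃ B : ℝ, ∀ x, |g i x - g j x| ≤ B := by
  have : CompactSpace Y := isCompact_iff_compactSpace.1 hY
  intro i j
  obtain ⟨B, hB⟩ := (isCompact_univ.image (f := fun x => |g i x - g j x|)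
    ((hg i).sub (hg j)).abs).bddAbove
  exact ⟨B, fun x => hB ⟨x, trivial, rfl⟩⟩

/-! ### Minima of piecewise linear functions are piecewise linear -/

theorem isPolyhedron_of {d : ℕ} {ι : Type} [Fintype ι] (A : ι → Fin d → ℝ) (b : ι → ℝ) :
    IsPolyhedron {x : Fin d → ℝ | ∀ i, ∑ k, A i k * x k ≤ b i} := by
  refine ⟨Fintype.card ι, fun i => A ((Fintype.equivFin ι).symm i),
    fun i => b ((Fintype.equivFin ι).symm i), ?_⟩
  ext x
  simp only [Set.mem_ofPred_eq]
  exact ⟨fun h i => h _, fun h i => by simpa using h (Fintype.equivFin ι i)⟩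

theorem isPolyhedron_inter {d : ℕ} {P P' : Set (Fin d → ℝ)} (hP : IsPolyhedron P)
    (hP' : IsPolyhedron P') : IsPolyhedron (P ∩ P') := by
  obtain ⟨n, A, b, rfl⟩ := hP
  obtain ⟨n', A', b', rfl⟩ := hP'
  have := isPolyhedron_of (ι := Fin n ⊕ Fin n') (Sum.elim A A') (Sum.elim b b')
  convert this using 1
  ext x
  simp [Sum.forall]

theorem isPolyhedron_half {d : ℕ} (s : Fin d → ℝ) (t : ℝ) :
    IsPolyhedron {x : Fin d → ℝ | ∑ k, s k * x k ≤ t} := by
  have := isPolyhedron_of (ι := Unit) (fun _ => s) (fun _ => t)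
  simpa using this

theorem isPL_of {d : ℕ} {Y : Set (Fin d → ℝ)} {f : Y → ℝ} (hf : Continuous f) {ι : Type}
    [Fintype ι] (Q : ι → Set (Fin d → ℝ)) (hQ : ∀ i, IsPolyhedron (Q i)) (hY : Y = ⋃ i, Q i)
    (h : ∀ i, ∃ (s : Fin d → ℝ) (t : ℝ), ∀ x : Y, x.1 ∈ Q i → f x = ∑ k, s k * x.1 k + t) :
    IsPL f := by
  refine ⟨hf, Fintype.card ι, fun i => Q ((Fintype.equivFin ι).symm i), fun i => hQ _, ?_,
    fun i => h _⟩
  rw [hY]
  ext x
  simp only [Set.mem_iUnion]
  exact ⟨fun ⟨i, hi⟩ => ⟨Fintype.equivFin ι i, by simpa using hi⟩, fun ⟨i, hi⟩ => ⟨_, hi⟩⟩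

theorem isPL_min {d : ℕ} {Y : Set (Fin d → ℝ)} {f f' : Y → ℝ} (hf : IsPL f) (hf' : IsPL f') :
    IsPL fun x => min (f x) (f' x) := by
  obtain ⟨hc, n, Q, hQ, hYQ, haff⟩ := hf
  obtain ⟨hc', n', Q', hQ', hYQ', haff'⟩ := hf'
  choose s t hst using haff
  choose s' t' hst' using haff'
  refine isPL_of (hc.min hc') (ι := (Fin n × Fin n') × Bool)
    (fun p => (Q p.1.1 ∩ Q' p.1.2) ∩ (if p.2 then
      {x | ∑ k, (s p.1.1 k - s' p.1.2 k) * x k ≤ t' p.1.2 - t p.1.1} else
      {x | ∑ k, (s' p.1.2 k - s p.1.1 k) * x k ≤ t p.1.1 - t' p.1.2})) ?_ ?_ ?_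
  · rintro ⟨⟨i, i'⟩, b⟩
    refine isPolyhedron_inter (isPolyhedron_inter (hQ i) (hQ' i')) ?_
    cases b
    · exact isPolyhedron_half _ _
    · exact isPolyhedron_half _ _
  · ext x
    constructor
    · intro hx
      obtain ⟨i, hi⟩ := Set.mem_iUnion.1 (hYQ ▸ hx)
      obtain ⟨i', hi'⟩ := Set.mem_iUnion.1 (hYQ' ▸ hx)
      rcases le_total (∑ k, s i k * x k + t i) (∑ k, s' i' k * x k + t' i') with h | h
      · refine Set.mem_iUnion.2 ⟨((i, i'), true), ⟨hi, hi'⟩, ?_⟩
        simp only [if_true, Set.mem_ofPred_eq, sub_mul, Finset.sum_sub_distrib]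
        linarith
      · refine Set.mem_iUnion.2 ⟨((i, i'), false), ⟨hi, hi'⟩, ?_⟩
        simp only [Bool.false_eq_true, if_false, Set.mem_ofPred_eq, sub_mul,
          Finset.sum_sub_distrib]
        linarith
    · intro hx
      obtain ⟨⟨⟨i, i'⟩, b⟩, ⟨hi, -⟩, -⟩ := Set.mem_iUnion.1 hx
      rw [hYQ]
      exact Set.mem_iUnion.2 ⟨i, hi⟩
  · rintro ⟨⟨i, i'⟩, b⟩
    cases b
    · refine ⟨s' i', t' i', fun x hx => ?_⟩
      obtain ⟨⟨h1, h2⟩, h3⟩ := hx
      simp only [Bool.false_eq_true, if_false, Set.mem_ofPred_eq, sub_mul,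
        Finset.sum_sub_distrib] at h3
      rw [hst i x h1, hst' i' x h2, min_eq_right]
      linarith
    · refine ⟨s i, t i, fun x hx => ?_⟩
      obtain ⟨⟨h1, h2⟩, h3⟩ := hx
      simp only [if_true, Set.mem_ofPred_eq, sub_mul, Finset.sum_sub_distrib] at h3
      rw [hst i x h1, hst' i' x h2, min_eq_left]
      linarith

theorem isPL_add_const {d : ℕ} {Y : Set (Fin d → ℝ)} {f : Y → ℝ} (hf : IsPL f) (u : ℝ) :
    IsPL fun x => f x + u := by
  obtain ⟨hc, n, Q, hQ, hYQ, haff⟩ := hf
  refine ⟨hc.add continuous_const, n, Q, hQ, hYQ, fun i => ?_⟩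
  obtain ⟨s, t, h⟩ := haff i
  exact ⟨s, t + u, fun x hx => by
    change f x + u = _
    rw [h x hx, add_assoc]⟩

/-- A semimodule generated by piecewise linear functions is contained in `Rat(Y, ℝ)`. -/
theorem semimod_subset_rat {d : ℕ} {Y : Set (Fin d → ℝ)} {l : ℕ}
    (g : Fin l → Y → ℝ) (hg : ∀ j, IsPL (g j)) : semimod g ⊆ RatY Y := by
  classical
  rintro _ ⟨c, rfl⟩
  have key : ∀ s : Finset (Fin l), (∀ x, (s.inf fun j => (g j x : WithTop ℝ) + c j) = ⊤) ∨
      ∃ h : Y → ℝ, IsPL h ∧ ∀ x, (s.inf fun j => (g j x : WithTop ℝ) + c j) = (h x : WithTop ℝ) := by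
    intro s
    induction s using Finset.induction_on with
    | empty => left; simp
    | insert a s ha ih =>
      by_cases h : c a = ⊤
      · have h1 : ∀ x, ((insert a s).inf fun j => (g j x : WithTop ℝ) + c j) =
            s.inf fun j => (g j x : WithTop ℝ) + c j := by
          intro x
          rw [Finset.inf_insert, h, add_top]
          exact top_inf_eq _
        simpa only [h1] using ih
      · obtain ⟨u, hu⟩ := WithTop.ne_top_iff_exists.1 h
        have h := hu.symm
        have h1 : ∀ x, (g a x : WithTop ℝ) + (u : WithTop ℝ) = ((g a x + u : ℝ) : WithTop ℝ) :=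
          fun x => (WithTop.coe_add _ _).symm
        right
        rcases ih with ih | ⟨h', hh', ih⟩
        · refine ⟨fun x => g a x + u, isPL_add_const (hg a) u, fun x => ?_⟩
          rw [Finset.inf_insert, ih x, h, h1]
          exact inf_top_eq _
        · refine ⟨fun x => min (g a x + u) (h' x), isPL_min (isPL_add_const (hg a) u) hh',
            fun x => ?_⟩
          rw [Finset.inf_insert, ih x, h, h1]
          exact (WithTop.coe_min _ _).symm
  rcases key Finset.univ with h | ⟨h, hPL, hh⟩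
  · exact Or.inl (funext h)
  · exact Or.inr ⟨h, hPL, funext hh⟩

theorem pl_of_rat {d : ℕ} {Y : Set (Fin d → ℝ)} [Nonempty Y] (f : Y → ℝ)
    (hf : (fun x => (f x : WithTop ℝ)) ∈ RatY Y) : IsPL f := by
  rcases hf with h | ⟨h, hPL, hh⟩
  · exact absurd (congrFun h (Classical.arbitrary Y)) WithTop.coe_ne_top
  · have : f = h := funext fun x => WithTop.coe_injective (congrFun hh x)
    rw [this]
    exact hPL

/-! ### Arbitrary semimodules -/

theorem semimod_subset {Y : Type} {M : Set (Y → WithTop ℝ)} (hM : IsSubsemimodule M) {l : ℕ}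
    (g : Fin l → Y → ℝ) (hg : ∀ j, (fun x => (g j x : WithTop ℝ)) ∈ M) : semimod g ⊆ M := by
  classical
  rintro _ ⟨c, rfl⟩
  have key : ∀ s : Finset (Fin l), (fun x => s.inf fun j => (g j x : WithTop ℝ) + c j) ∈ M := by
    intro s
    induction s using Finset.induction_on with
    | empty => simpa using hM.1
    | insert a s ha ih =>
      have h1 : (fun x => (g a x : WithTop ℝ) + c a) ∈ M := by
        by_cases h : c a = ⊤
        · simpa only [h, add_top] using hM.1
        · obtain ⟨u, hu⟩ := WithTop.ne_top_iff_exists.1 h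
          rw [← hu]
          exact hM.2.2 _ (hg a) u
      have h2 := hM.2.1 _ h1 _ ih
      simpa only [Finset.inf_insert] using h2
  exact key Finset.univ

theorem inf_add_const {ι : Type} (s : Finset ι) (f : ι → WithTop ℝ) (c : WithTop ℝ) :
    s.inf f + c = s.inf fun j => f j + c := by
  classical
  induction s using Finset.induction_on with
  | empty => simp
  | insert a s ha ih =>
    rw [Finset.inf_insert, Finset.inf_insert, ← ih]
    exact (min_add_add_right _ _ _).symm

theorem inf_inf_aux {ι : Type} (s : Finset ι) (a b : ι → WithTop ℝ) :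
    (s.inf fun j => a j ⊓ b j) = s.inf a ⊓ s.inf b :=
  le_antisymm
    (le_inf (Finset.le_inf fun _ hj => (Finset.inf_le (f := fun j => a j ⊓ b j) hj).trans
      inf_le_left) (Finset.le_inf fun _ hj =>
        (Finset.inf_le (f := fun j => a j ⊓ b j) hj).trans inf_le_right))
    (Finset.le_inf fun _ hj => le_inf (inf_le_left.trans (Finset.inf_le hj))
      (inf_le_right.trans (Finset.inf_le hj)))

theorem isSubsemimodule_semimod {Y : Type} {l : ℕ} (g : Fin l → Y → ℝ) :
    IsSubsemimodule (semimod g) := by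
  refine ⟨⟨fun _ => ⊤, ?_⟩, ?_, ?_⟩
  · funext x
    simp [comb]
  · rintro _ ⟨c, rfl⟩ _ ⟨c', rfl⟩
    refine ⟨fun j => min (c j) (c' j), ?_⟩
    funext x
    have h : ∀ j, (g j x : WithTop ℝ) + min (c j) (c' j) =
        ((g j x : WithTop ℝ) + c j) ⊓ ((g j x : WithTop ℝ) + c' j) := fun j =>
      (min_add_add_left _ _ _).symm
    simp only [comb, h]
    exact inf_inf_aux _ _ _
  · rintro _ ⟨c, rfl⟩ t
    refine ⟨fun j => c j + (t : WithTop ℝ), ?_⟩
    funext x
    simp only [comb, inf_add_const, add_assoc]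

theorem troprankT_mono {Y : Type} {M M' : Set (Y → WithTop ℝ)} (h : M ⊆ M') :
    troprankT M ≤ troprankT M' := by
  refine sSup_le_sSup ?_
  rintro _ ⟨r, F, h1, h3, rfl⟩
  exact ⟨r, F, fun i => h (h1 i), h3, rfl⟩

theorem troprankP_mono {Y : Type} {M M' : Set (Y → WithTop ℝ)} (h : M ⊆ M') :
    troprankP M ≤ troprankP M' := by
  refine sSup_le_sSup ?_
  rintro _ ⟨r, F, h1, h2, h3, rfl⟩
  exact ⟨r, F, fun i => h (h1 i), h2, h3, rfl⟩

theorem gen_mem {Y : Type} {l : ℕ} (g : Fin l → Y → ℝ) (i : Fin l) :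
    (fun x => (g i x : WithTop ℝ)) ∈ semimod g := by
  simpa using single_mem g i 0

theorem troprankT_eq_dimSup {Y : Type} [Nonempty Y] {M : Set (Y → WithTop ℝ)}
    (hM : IsSubsemimodule M) : troprankT M = dimSup M := by
  apply le_antisymm
  · refine sSup_le ?_
    rintro _ ⟨r, F, hFM, hF, rfl⟩
    refine le_trans ?_ (le_sSup ⟨r, F, hFM, rfl⟩)
    rw [← TropRankDim.result.1 Y r F]
    exact le_sSup ⟨r, F, gen_mem F, hF, rfl⟩
  · refine sSup_le ?_
    rintro _ ⟨l, g, hg, rfl⟩
    rw [← TropRankDim.result.1 Y l g]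
    exact troprankT_mono (semimod_subset hM g hg)

theorem dimSup_semimod {Y : Type} [Nonempty Y] {l : ℕ} (g : Fin l → Y → ℝ) :
    dimSup (semimod g) = dim g := by
  rw [← troprankT_eq_dimSup (isSubsemimodule_semimod g), TropRankDim.result.1 Y l g]

theorem bounded_case_general {Y : Type} [Nonempty Y] {M : Set (Y → WithTop ℝ)}
    (hM : IsSubsemimodule M)
    (hB : ∀ f f' : Y → ℝ, (fun x => (f x : WithTop ℝ)) ∈ M → (fun x => (f' x : WithTop ℝ)) ∈ M →
      ∃ B : ℝ, ∀ x, |f x - f' x| ≤ B) :
    troprank M = dimSup M ∧ troprankP M = dimSup M := by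
  have h1 : troprank M ≤ dimSup M := by
    refine sSup_le ?_
    rintro _ ⟨r, F, hFM, hF, rfl⟩
    refine le_trans ?_ (le_sSup ⟨r, F, hFM, rfl⟩)
    rw [← (bounded_case F fun i j => hB _ _ (hFM i) (hFM j)).1]
    exact le_sSup ⟨r, F, gen_mem F, hF, rfl⟩
  have h2 : dimSup M ≤ troprankP M := by
    rw [← troprankT_eq_dimSup hM]
    exact le_troprankP M
  exact ⟨le_antisymm h1 (h2.trans (troprankP_le M)), le_antisymm ((troprankP_le M).trans h1) h2⟩

/-- **Main theorem.**
1. Real functions `g_1, ..., g_l` on a nonempty set: the dimension is at most `l`; if all the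
   differences `g_i - g_j` are bounded, then the tropical rank over the reals, also when elements
   that differ by a constant are counted once, equals the dimension; otherwise it is infinite.
2. For an arbitrary `T`-semimodule `M` of functions on a nonempty set, the tropical rank with
   coefficients in `T` is the supremum of the dimensions of the finitely generated
   subsemimodules, and if differences of elements of `M` are bounded the same holds over the reals.
3. For a nonempty polyhedral space `Y ⊆ ℝ^d` the following are equivalent: `Y` is compact;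
   tropical rank equals dimension for all finitely generated semimodules of piecewise linear
   functions; the same with elements that differ by a constant counted once; both equalities for
   all semimodules of piecewise linear functions; for each `k` the semimodule generated by `0`
   and `x_k` has finite tropical rank; for each `k` and each sign `e` the semimodule generated by
   `0`, `e x_k`, `2 e x_k` has finite tropical rank with elements that differ by a constant
   counted once.
4. The dimension of a finitely generated semimodule computed from generators is the supremum of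
   the dimensions computed from finite families of elements; so it is independent of the
   generators and monotone. -/
theorem result :
    -- the dichotomy, on an arbitrary nonempty set
    (∀ (Y : Type) [Nonempty Y] (l : ℕ) (g : Fin l → Y → ℝ), dim g ≤ l ∧
      ((∀ i j, ∃ B : ℝ, ∀ x, |g i x - g j x| ≤ B) →
        troprank (semimod g) = dim g ∧ troprankP (semimod g) = dim g) ∧
      ((¬ ∀ i j, ∃ B : ℝ, ∀ x, |g i x - g j x| ≤ B) → troprank (semimod g) = ⊤)) ∧
    -- arbitrary semimodules, on an arbitrary nonempty set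
    (∀ (Y : Type) [Nonempty Y] (M : Set (Y → WithTop ℝ)), IsSubsemimodule M →
      troprankT M = dimSup M ∧
      ((∀ f f' : Y → ℝ, (fun x => (f x : WithTop ℝ)) ∈ M → (fun x => (f' x : WithTop ℝ)) ∈ M →
        ∃ B : ℝ, ∀ x, |f x - f' x| ≤ B) → troprank M = dimSup M ∧ troprankP M = dimSup M)) ∧
    -- the polyhedral spaces on which tropical rank and dimension always agree
    (∀ (d : ℕ) (Y : Set (Fin d → ℝ)), Y.Nonempty → IsPolyhedralSpace Y →
      List.TFAE [
        IsCompact Y,
        ∀ (l : ℕ) (g : Fin l → Y → ℝ), (∀ j, IsPL (g j)) → troprank (semimod g) = dim g,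
        ∀ (l : ℕ) (g : Fin l → Y → ℝ), (∀ j, IsPL (g j)) → troprankP (semimod g) = dim g,
        ∀ M ⊆ RatY Y, IsSubsemimodule M → troprank M = dimSup M ∧ troprankP M = dimSup M,
        ∀ k : Fin d, troprank (semimod (gen2 Y k)) ≠ ⊤,
        ∀ k : Fin d, troprankP (semimod (gen3 Y k 1)) ≠ ⊤ ∧
          troprankP (semimod (gen3 Y k (-1))) ≠ ⊤]) ∧
    -- the dimension does not depend on the generating set and is monotone
    (∀ (Y : Type) [Nonempty Y] (l : ℕ) (g : Fin l → Y → ℝ), dimSup (semimod g) = dim g ∧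
      ∀ (l' : ℕ) (g' : Fin l' → Y → ℝ), semimod g ⊆ semimod g' → dim g ≤ dim g') := by
  have hdim_top : ∀ {Y : Type} {l : ℕ} (g : Fin l → Y → ℝ), dim g ≠ ⊤ := by
    intro Y l g h
    have := dim_le_card g
    rw [h] at this
    exact absurd (top_le_iff.1 this) (ENat.natCast_ne_top l)
  refine ⟨fun Y _ l g => ⟨dim_le_card g, bounded_case g, fun h => ?_⟩,
    fun Y _ M hM => ⟨troprankT_eq_dimSup hM, bounded_case_general hM⟩, fun d Y hne hY => ?_,
    fun Y _ l g => ⟨dimSup_semimod g, fun l' g' h => ?_⟩⟩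
  · obtain ⟨i, j, hij⟩ := exists_unbounded g h
    exact troprank_eq_top_of_unbounded g i j hij
  · have : Nonempty Y := hne.to_subtype
    have hcl := isClosed_space hY
    tfae_have 1 → 2 := fun h l g hg =>
      (bounded_case g (compact_bounded h g fun j => (hg j).1)).1
    tfae_have 1 → 3 := fun h l g hg =>
      (bounded_case g (compact_bounded h g fun j => (hg j).1)).2
    tfae_have 1 → 4 := fun h M hPL hM => by
      refine bounded_case_general hM fun f f' hf hf' => ?_
      obtain ⟨B, hB⟩ := compact_bounded h ![f, f'] (fun j => by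
        fin_cases j
        · exact (pl_of_rat f (hPL hf)).1
        · exact (pl_of_rat f' (hPL hf')).1) 0 1
      exact ⟨B, fun x => by simpa using hB x⟩
    tfae_have 4 → 2 := fun h l g hg => by
      rw [(h (semimod g) (semimod_subset_rat g hg) (isSubsemimodule_semimod g)).1,
        dimSup_semimod]
    tfae_have 2 → 5 := fun h k => by
      rw [h 2 (gen2 Y k) (gen2_pl hY k)]
      exact hdim_top _
    tfae_have 3 → 6 := fun h k => by
      rw [h 3 (gen3 Y k 1) (gen3_pl hY k 1), h 3 (gen3 Y k (-1)) (gen3_pl hY k (-1))]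
      exact ⟨hdim_top _, hdim_top _⟩
    tfae_have 5 → 1 := fun h => by
      refine isCompact_of_coord hcl fun k => ?_
      by_contra hcon
      push Not at hcon
      have h2 : ¬ ∀ i j, ∃ B : ℝ, ∀ x, |gen2 Y k i x - gen2 Y k j x| ≤ B := by
        intro h3
        obtain ⟨B, hB⟩ := h3 1 0
        obtain ⟨x, hx, hxB⟩ := hcon B
        have := hB ⟨x, hx⟩
        simp only [gen2, Matrix.cons_val_one, Matrix.cons_val_zero, sub_zero] at this
        exact absurd this (not_le.2 hxB)
      obtain ⟨i, j, hij⟩ := exists_unbounded _ h2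
      exact h k (troprank_eq_top_of_unbounded _ i j hij)
    tfae_have 6 → 1 := fun h => by
      obtain ⟨x0⟩ := this
      refine isCompact_of_coord hcl fun k => ?_
      by_contra hcon
      push Not at hcon
      have h2 : (∀ B : ℝ, ∃ x : Y, B < x.1 k) ∨ (∀ B : ℝ, ∃ x : Y, B < -x.1 k) := by
        by_contra h3
        push Not at h3
        obtain ⟨⟨B1, h1⟩, B2, h2⟩ := h3
        obtain ⟨x, hx, hxB⟩ := hcon (max B1 B2)
        have e1 := h1 ⟨x, hx⟩
        have e2 := h2 ⟨x, hx⟩
        simp only at e1 e2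
        refine absurd (abs_le.2 ⟨?_, e1.trans (le_max_left B1 B2)⟩) (not_le.2 hxB)
        have := le_max_right B1 B2
        linarith
      rcases h2 with h2 | h2
      · refine (h k).1 (troprankP_three x0 (fun x => x.1 k) h2 _ ?_ ?_ ?_) <;> intro x <;>
          simp [gen3]
      · refine (h k).2 (troprankP_three x0 (fun x => -x.1 k) h2 _ ?_ ?_ ?_) <;> intro x <;>
          simp [gen3]
    tfae_finish
  · rw [← TropRankDim.result.1 Y l g, ← TropRankDim.result.1 Y l' g']
    exact troprankT_mono h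

end Pool.Agent.Results.MP_8916ec_co.CompactIffEquality
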